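import Mathlib
import Pool.Agent.N290.RI.Stm

/-!
# Change of variables under the involution of the ball (project RI of helper290, part C3)
-/

set_option autoImplicit false

open Complex MeasureTheory Set Filter Topology
open scoped ENNReal

namespace Pool.Agent.N935.RI

open Pool.Agent.N290.RI

theorem u_ne {x : ℝ} (h0 : 0 ≤ x) (h1 : x < 1) {ξ : ℂ × ℂ} (hξ : ξ ∈ B) :
    (1 - x * ξ.1 : ℂ) ≠ 0 := by
  intro h
  have h2 : ‖(x : ℂ) * ξ.1‖ = 1 := by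
    have : (x : ℂ) * ξ.1 = 1 := by linear_combination -h
    rw [this, norm_one]
  rw [norm_mul, Complex.norm_real, Real.norm_of_nonneg h0] at h2
  have h3 : ‖ξ.1‖ ^ 2 + ‖ξ.2‖ ^ 2 < 1 := hξ
  have h4 : ‖ξ.1‖ < 1 := by nlinarith [norm_nonneg ξ.1, norm_nonneg ξ.2]
  nlinarith [norm_nonneg ξ.1]

theorem s_sq {x : ℝ} (h0 : 0 ≤ x) (h1 : x < 1) :
    ((Real.sqrt (1 - x ^ 2) : ℝ) : ℂ) ^ 2 = 1 - x ^ 2 := by
  have : (Real.sqrt (1 - x ^ 2)) ^ 2 = 1 - x ^ 2 := Real.sq_sqrt (by nlinarith)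
  exact_mod_cast this

theorem one_sub_ne {x : ℝ} (h0 : 0 ≤ x) (h1 : x < 1) : (1 - (x : ℂ) ^ 2) ≠ 0 := by
  have : (1 - x ^ 2 : ℝ) ≠ 0 := by nlinarith
  exact_mod_cast this

theorem invol {x : ℝ} (h0 : 0 ≤ x) (h1 : x < 1) {ξ : ℂ × ℂ} (hξ : ξ ∈ B) :
    Ph x (Ph x ξ) = ξ := by
  have hu := u_ne h0 h1 hξ
  have hs := s_sq h0 h1
  have hx := one_sub_ne h0 h1
  have e1 : (1 - x * ((x - ξ.1) / (1 - x * ξ.1)) : ℂ) = (1 - (x : ℂ) ^ 2) / (1 - x * ξ.1) := by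
    field_simp
    ring
  unfold Ph
  simp only
  rw [e1]
  refine Prod.ext ?_ ?_
  · show (x - (x - ξ.1) / (1 - x * ξ.1)) / ((1 - (x : ℂ) ^ 2) / (1 - x * ξ.1)) = ξ.1
    field_simp
    ring
  · show -(((Real.sqrt (1 - x ^ 2) : ℝ) : ℂ) * (-(((Real.sqrt (1 - x ^ 2) : ℝ) : ℂ) * ξ.2) /
      (1 - x * ξ.1))) / ((1 - (x : ℂ) ^ 2) / (1 - x * ξ.1)) = ξ.2
    have e2 : -(((Real.sqrt (1 - x ^ 2) : ℝ) : ℂ) * (-(((Real.sqrt (1 - x ^ 2) : ℝ) : ℂ) * ξ.2) /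
      (1 - x * ξ.1))) = ((Real.sqrt (1 - x ^ 2) : ℝ) : ℂ) ^ 2 * ξ.2 / (1 - x * ξ.1) := by ring
    rw [e2, hs]
    field_simp

theorem mem_of {x : ℝ} (h0 : 0 ≤ x) (h1 : x < 1) {ξ : ℂ × ℂ} (hξ : ξ ∈ B) : Ph x ξ ∈ B := by
  have hu := u_ne h0 h1 hξ
  have hu' : 0 < ‖(1 - x * ξ.1 : ℂ)‖ := norm_pos_iff.2 hu
  have hN : N ξ < 1 := hξ
  have hx : 0 < 1 - x ^ 2 := by nlinarith
  have hs : (Real.sqrt (1 - x ^ 2)) ^ 2 = 1 - x ^ 2 := Real.sq_sqrt hx.le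
  show ‖(x - ξ.1) / (1 - x * ξ.1)‖ ^ 2 +
    ‖-(((Real.sqrt (1 - x ^ 2) : ℝ) : ℂ) * ξ.2) / (1 - x * ξ.1)‖ ^ 2 < 1
  rw [norm_div, norm_div, norm_neg, norm_mul, Complex.norm_real,
    Real.norm_of_nonneg (Real.sqrt_nonneg _), div_pow, div_pow, mul_pow, hs, ← add_div,
    div_lt_one (by positivity)]
  have e1 : ‖(1 - x * ξ.1 : ℂ)‖ ^ 2 = ‖(x - ξ.1 : ℂ)‖ ^ 2 + (1 - x ^ 2) * (1 - ‖ξ.1‖ ^ 2) := by
    rw [← Complex.normSq_eq_norm_sq, ← Complex.normSq_eq_norm_sq, ← Complex.normSq_eq_norm_sq,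
      Complex.normSq_apply, Complex.normSq_apply, Complex.normSq_apply]
    simp
    ring
  rw [e1]
  unfold N at hN
  nlinarith

/-- the complex derivative -/
noncomputable def LL (α c γ : ℂ) : ℂ × ℂ →L[ℂ] ℂ × ℂ :=
  (α • ContinuousLinearMap.fst ℂ ℂ ℂ).prod
    (c • ContinuousLinearMap.fst ℂ ℂ ℂ + γ • ContinuousLinearMap.snd ℂ ℂ ℂ)

theorem det_LL (α c γ : ℂ) : ((LL α c γ).restrictScalars ℝ).det = ‖α * γ‖ ^ 2 := by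
  have h1 : ((LL α c γ).restrictScalars ℝ).det =
      LinearMap.det (((LL α c γ : ℂ × ℂ →L[ℂ] ℂ × ℂ) : ℂ × ℂ →ₗ[ℂ] ℂ × ℂ).restrictScalars ℝ) := rfl
  rw [h1, LinearMap.det_restrictScalars, Algebra.norm_complex_apply,
    Complex.normSq_eq_norm_sq]
  congr 2
  rw [← LinearMap.det_toMatrix (Module.Basis.finTwoProd ℂ), Matrix.det_fin_two]
  simp [LinearMap.toMatrix_apply, LL]

theorem hasF {x : ℝ} (h0 : 0 ≤ x) (h1 : x < 1) {ξ : ℂ × ℂ} (hξ : ξ ∈ B) :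
    ∃ c : ℂ, HasFDerivAt (Ph x) (LL (-(1 - (x : ℂ) ^ 2) / (1 - x * ξ.1) ^ 2) c
      (-((Real.sqrt (1 - x ^ 2) : ℝ) : ℂ) / (1 - x * ξ.1))) ξ := by
  have hu := u_ne h0 h1 hξ
  set s : ℂ := ((Real.sqrt (1 - x ^ 2) : ℝ) : ℂ) with hs
  have d0 : HasDerivAt (fun t : ℂ => (1 - x * t : ℂ)) (-x) ξ.1 := by
    simpa using ((hasDerivAt_id ξ.1).const_mul (x : ℂ)).const_sub 1
  have d1 : HasDerivAt (fun t : ℂ => (x - t) / (1 - x * t))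
      (-(1 - (x : ℂ) ^ 2) / (1 - x * ξ.1) ^ 2) ξ.1 := by
    have h2 : HasDerivAt (fun t : ℂ => (x - t : ℂ)) (-1) ξ.1 := by
      simpa using (hasDerivAt_id ξ.1).const_sub (x : ℂ)
    refine (h2.div d0 hu).congr_deriv ?_
    congr 1
    ring
  have d2 : HasDerivAt (fun t : ℂ => (1 - x * t : ℂ)⁻¹) (x / (1 - x * ξ.1) ^ 2) ξ.1 := by
    refine (d0.inv hu).congr_deriv ?_
    rw [neg_neg]
  have f1 : HasFDerivAt (fun ξ : ℂ × ℂ => (x - ξ.1) / (1 - x * ξ.1))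
      ((-(1 - (x : ℂ) ^ 2) / (1 - x * ξ.1) ^ 2) • ContinuousLinearMap.fst ℂ ℂ ℂ) ξ :=
    d1.comp_hasFDerivAt ξ hasFDerivAt_fst
  have f2 : HasFDerivAt (fun ξ : ℂ × ℂ => (1 - x * ξ.1 : ℂ)⁻¹)
      ((x / (1 - x * ξ.1) ^ 2) • ContinuousLinearMap.fst ℂ ℂ ℂ) ξ :=
    d2.comp_hasFDerivAt ξ hasFDerivAt_fst
  have f3 : HasFDerivAt (fun ξ : ℂ × ℂ => (-s) * ξ.2)
      ((-s) • ContinuousLinearMap.snd ℂ ℂ ℂ) ξ := hasFDerivAt_snd.const_mul (-s)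
  have f4 := f3.mul f2
  refine ⟨-s * ξ.2 * (x / (1 - x * ξ.1) ^ 2), ?_⟩
  have f5 : HasFDerivAt (fun ξ : ℂ × ℂ => -(s * ξ.2) / (1 - x * ξ.1))
      ((-s * ξ.2 * (x / (1 - x * ξ.1) ^ 2)) • ContinuousLinearMap.fst ℂ ℂ ℂ +
        (-s / (1 - x * ξ.1)) • ContinuousLinearMap.snd ℂ ℂ ℂ) ξ := by
    refine (f4.congr_fderiv ?_).congr_of_eventuallyEq (Eventually.of_forall fun η => ?_)
    · rw [smul_smul, smul_smul]
      congr 2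
      rw [div_eq_mul_inv, mul_comm]
    · simp only [Pi.mul_apply]
      rw [div_eq_mul_inv]
      ring
  exact f1.prodMk f5

theorem jac {x : ℝ} (h0 : 0 ≤ x) (h1 : x < 1) (u : ℂ) :
    ‖(-(1 - (x : ℂ) ^ 2) / u ^ 2) * (-((Real.sqrt (1 - x ^ 2) : ℝ) : ℂ) / u)‖ ^ 2 =
      (1 - x ^ 2) ^ 3 / ‖u‖ ^ 6 := by
  have hx : 0 ≤ 1 - x ^ 2 := by nlinarith
  have hs : (Real.sqrt (1 - x ^ 2)) ^ 2 = 1 - x ^ 2 := Real.sq_sqrt hx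
  have e1 : ‖(1 - (x : ℂ) ^ 2)‖ = 1 - x ^ 2 := by
    have : (1 - (x : ℂ) ^ 2) = ((1 - x ^ 2 : ℝ) : ℂ) := by push_cast; ring
    rw [this, Complex.norm_real, Real.norm_of_nonneg hx]
  rw [norm_mul, norm_div, norm_div, norm_neg, norm_neg, e1, Complex.norm_real,
    Real.norm_of_nonneg (Real.sqrt_nonneg _), norm_pow]
  have e2 : ((1 - x ^ 2) / ‖u‖ ^ 2 * (Real.sqrt (1 - x ^ 2) / ‖u‖)) ^ 2 =
      (1 - x ^ 2) ^ 2 * (Real.sqrt (1 - x ^ 2)) ^ 2 / ‖u‖ ^ 6 := by ring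
  rw [e2, hs]
  ring

theorem image_eq {x : ℝ} (h0 : 0 ≤ x) (h1 : x < 1) : Ph x '' B = B := by
  apply Subset.antisymm
  · rintro _ ⟨ξ, hξ, rfl⟩
    exact mem_of h0 h1 hξ
  · intro ξ hξ
    exact ⟨Ph x ξ, mem_of h0 h1 hξ, invol h0 h1 hξ⟩

theorem injOn {x : ℝ} (h0 : 0 ≤ x) (h1 : x < 1) : InjOn (Ph x) B := by
  intro ξ hξ η hη h
  rw [← invol h0 h1 hξ, h, invol h0 h1 hη]

theorem exists_der {x : ℝ} (h0 : 0 ≤ x) (h1 : x < 1) :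
    ∃ D : ℂ × ℂ → (ℂ × ℂ →L[ℝ] ℂ × ℂ), (∀ ξ ∈ B, HasFDerivWithinAt (Ph x) (D ξ) B ξ) ∧
      ∀ ξ ∈ B, |(D ξ).det| = (1 - x ^ 2) ^ 3 / ‖(1 - x * ξ.1 : ℂ)‖ ^ 6 := by
  classical
  refine ⟨fun ξ => if h : ξ ∈ B then (LL (-(1 - (x : ℂ) ^ 2) / (1 - x * ξ.1) ^ 2)
    (hasF h0 h1 h).choose (-((Real.sqrt (1 - x ^ 2) : ℝ) : ℂ) / (1 - x * ξ.1))).restrictScalars ℝ
    else 0, fun ξ hξ => ?_, fun ξ hξ => ?_⟩
  · simp only [dif_pos hξ]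
    exact ((hasF h0 h1 hξ).choose_spec.restrictScalars ℝ).hasFDerivWithinAt
  · simp only [dif_pos hξ]
    rw [det_LL, jac h0 h1, abs_of_nonneg]
    have : 0 ≤ 1 - x ^ 2 := by nlinarith
    positivity

theorem haar : (volume : Measure (ℂ × ℂ)).IsAddHaarMeasure :=
  inferInstanceAs ((volume : Measure ℂ).prod (volume : Measure ℂ)).IsAddHaarMeasure

theorem c3 : C3 := by
  intro x h0 h1
  have := haar
  obtain ⟨D, hD, hdet⟩ := exists_der h0 h1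
  refine ⟨fun ξ hξ => mem_of h0 h1 hξ, fun F _ => ?_, fun F => ?_⟩
  · have h2 := lintegral_image_eq_lintegral_abs_det_fderiv_mul (volume : Measure (ℂ × ℂ)) B_meas hD (injOn h0 h1) F
    rw [image_eq h0 h1] at h2
    rw [h2]
    refine setLIntegral_congr_fun B_meas fun ξ hξ => ?_
    simp only [hdet ξ hξ]
  · have h2 := integral_image_eq_integral_abs_det_fderiv_smul (volume : Measure (ℂ × ℂ)) B_meas hD (injOn h0 h1) F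
    rw [image_eq h0 h1] at h2
    rw [h2]
    refine setIntegral_congr_fun B_meas fun ξ hξ => ?_
    simp only [hdet ξ hξ, Complex.real_smul]

end Pool.Agent.N935.RI
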